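import Pool.Agent.Helper10K1.ML.Stm

/-!
# Project ML, piece RES (helper28)
-/

set_option autoImplicit false

open Filter Polynomial

namespace Pool.Agent.Helper28K1.ML

open Pool.Agent.Helper10K1.ML

universe u

theorem gen (L M : Type u) [Field L] [Field M] [Algebra L M] [IsSepClosed M] (Γ : Type u) [Group Γ]
    (A : Γ →* (M ≃ₐ[L] M))
    (hfix : ∀ x : M, (∀ g, A g x = x) → x ∈ Set.range (algebraMap L M)) :
    ∃ (j : SeparableClosure L →ₐ[L] M) (R : Γ →* Gal(SeparableClosure L/L)),
      (∀ g t, j (R g t) = A g (j t)) ∧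
      (∀ V : Subgroup (Gal(SeparableClosure L/L)), IsOpen (V : Set (Gal(SeparableClosure L/L))) →
        ∀ γ, ∃ g, (R g)⁻¹ * γ ∈ V) ∧
      (∀ y : M, (Set.range fun g => A g y).Finite → ∃ t, j t = y) := by
  classical
  let j : SeparableClosure L →ₐ[L] M := IsSepClosed.lift
  letI : Algebra (SeparableClosure L) M := j.toRingHom.toAlgebra
  haveI : IsScalarTower L (SeparableClosure L) M :=
    IsScalarTower.of_algebraMap_eq' j.comp_algebraMap.symm
  let R : Γ →* Gal(SeparableClosure L/L) :=
    (AlgEquiv.restrictNormalHom (SeparableClosure L)).comp A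
  have hR : ∀ g t, j (R g t) = A g (j t) := fun g t =>
    AlgEquiv.restrictNormal_commutes (A g) (SeparableClosure L) t
  have hj : Function.Injective j := j.injective
  refine ⟨j, R, hR, ?_, ?_⟩
  · intro V hV γ
    let H : ClosedSubgroup (Gal(SeparableClosure L/L)) :=
      { R.range.topologicalClosure with
        isClosed' := R.range.isClosed_topologicalClosure }
    have h1 : IntermediateField.fixedField H.1 = ⊥ := by
      rw [eq_bot_iff]
      intro t ht
      rw [IntermediateField.mem_fixedField_iff] at ht
      have h2 : ∀ g, R g t = t := fun g =>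
        ht (R g) (R.range.le_topologicalClosure ⟨g, rfl⟩)
      obtain ⟨l, hl⟩ := hfix (j t) fun g => by rw [← hR, h2]
      rw [IntermediateField.mem_bot]
      refine ⟨l, hj ?_⟩
      rw [← hl, AlgHom.commutes]
    have h3 := InfiniteGalois.fixingSubgroup_fixedField H
    rw [h1, IntermediateField.fixingSubgroup_bot] at h3
    have h4 : γ ∈ closure (R.range : Set (Gal(SeparableClosure L/L))) := by
      have : γ ∈ H.1 := by rw [← h3]; trivial
      exact this
    have h5 : IsOpen ((fun x => γ⁻¹ * x) ⁻¹' (V : Set (Gal(SeparableClosure L/L)))) :=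
      hV.preimage (continuous_const_mul γ⁻¹)
    have h6 : γ ∈ ((fun x => γ⁻¹ * x) ⁻¹' (V : Set (Gal(SeparableClosure L/L)))) := by
      simp [V.one_mem]
    obtain ⟨δ, h7, ⟨g, rfl⟩⟩ := mem_closure_iff.mp h4 _ h5 h6
    refine ⟨g, ?_⟩
    have h8 : γ⁻¹ * R g ∈ V := h7
    have h9 := V.inv_mem h8
    rwa [mul_inv_rev, inv_inv] at h9
  · intro y hy
    let S : Finset M := hy.toFinset
    have hyS : y ∈ S := by
      rw [Set.Finite.mem_toFinset]
      exact ⟨1, by simp⟩
    let P : M[X] := ∏ z ∈ S, (X - C z)
    have hPmap : ∀ g, P.map (A g : M →+* M) = P := by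
      intro g
      show (∏ z ∈ S, (X - C z)).map (A g : M →+* M) = ∏ z ∈ S, (X - C z)
      rw [Polynomial.map_prod]
      refine Finset.prod_bij (fun z _ => A g z) ?_ ?_ ?_ ?_
      · intro z hz
        rw [Set.Finite.mem_toFinset] at hz ⊢
        obtain ⟨h, rfl⟩ := hz
        exact ⟨g * h, by simp⟩
      · intro a _ b _ h
        exact (A g).injective h
      · intro z hz
        rw [Set.Finite.mem_toFinset] at hz
        obtain ⟨h, rfl⟩ := hz
        refine ⟨A (g⁻¹ * h) y, ?_, ?_⟩
        · rw [Set.Finite.mem_toFinset]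
          exact ⟨g⁻¹ * h, rfl⟩
        · rw [← AlgEquiv.mul_apply, ← map_mul]
          simp
      · intro z hz
        simp
    have hcoef : ∀ n, P.coeff n ∈ Set.range (algebraMap L M) := by
      intro n
      apply hfix
      intro g
      have := congrArg (fun q => q.coeff n) (hPmap g)
      simpa using this
    obtain ⟨Q, hQ⟩ : ∃ Q : L[X], Q.map (algebraMap L M) = P :=
      (Polynomial.lifts_iff_coeff_lifts P).mpr hcoef
    have hPsep : P.Separable := by
      show (∏ z ∈ S, (X - C z)).Separable
      rw [separable_prod_X_sub_C_iff' (f := fun z : M => z)]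
      intro a _ b _ h
      exact h
    have hQsep : Q.Separable := by
      rw [← hQ, Polynomial.separable_map] at hPsep
      exact hPsep
    have hsplit : (Q.map (algebraMap L (SeparableClosure L))).Splits :=
      IsSepClosed.splits_codomain Q hQsep
    have hPy : P.eval y = 0 := by
      show (∏ z ∈ S, (X - C z)).eval y = 0
      rw [Polynomial.eval_prod]
      exact Finset.prod_eq_zero hyS (by simp)
    have hmap : (Q.map (algebraMap L (SeparableClosure L))).map (j : SeparableClosure L →+* M) = P := by
      rw [Polynomial.map_map, ← hQ]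
      congr 1
      exact j.comp_algebraMap
    have hP0 : P ≠ 0 := hPsep.ne_zero
    have hne : Q.map (algebraMap L (SeparableClosure L)) ≠ 0 := by
      intro h
      rw [h, Polynomial.map_zero] at hmap
      exact hP0 hmap.symm
    have h1 := hsplit.eq_prod_roots
    rw [h1, Polynomial.map_mul, Polynomial.map_multiset_prod, Multiset.map_map] at hmap
    rw [← hmap, Polynomial.eval_mul, mul_eq_zero] at hPy
    rcases hPy with h2 | h2
    · rw [Polynomial.map_C, Polynomial.eval_C] at h2
      exfalso
      have h3 : (Q.map (algebraMap L (SeparableClosure L))).leadingCoeff = 0 := hj (by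
        rw [map_zero]; exact h2)
      exact hne (Polynomial.leadingCoeff_eq_zero.mp h3)
    · rw [Polynomial.eval_multiset_prod, Multiset.prod_eq_zero_iff, Multiset.mem_map] at h2
      obtain ⟨q, hq, hq0⟩ := h2
      rw [Multiset.mem_map] at hq
      obtain ⟨t, _, rfl⟩ := hq
      refine ⟨t, ?_⟩
      simp only [Function.comp_apply, Polynomial.map_sub, Polynomial.map_X, Polynomial.map_C,
        Polynomial.eval_sub, Polynomial.eval_X, Polynomial.eval_C] at hq0
      exact (sub_eq_zero.mp hq0).symm

theorem t_RES : S_RES.{u} := by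
  intro hSC hACT F _ U
  haveI : IsSepClosed (Om F U) := hSC F U
  obtain ⟨A, hA, hfix⟩ := hACT F U
  obtain ⟨j, R, hR, hd, hf⟩ := gen (Ul F U) (Om F U) (∀ N, G (F N)) A hfix
  refine ⟨j, R, ⟨?_, ?_, ?_⟩⟩
  · intro g t x ht
    rw [hR, ht]
    exact hA g x
  · intro V _ hV γ
    exact hd V hV γ
  · intro x hx
    apply hf
    have : (fun g : ∀ N, G (F N) => A g (cls (fun N => SeparableClosure (F N)) U x)) =
        fun g : ∀ N, G (F N) => cls (fun N => SeparableClosure (F N)) U fun N => g N (x N) := by
      funext g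
      exact hA g x
    rw [this]
    exact hx

end Pool.Agent.Helper28K1.ML
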